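import Pool.Agent.PFC.StmtsB2
import Pool.Agent.PFC.Chain

/-!
Squad PFC, row DEF (helper49): the deformation theorem from the blocks B1, B2, B3.
-/

set_option autoImplicit false

namespace Pool.Agent.PFC.H49

open Pool.Agent.PFC

/-- DEF: the deformation theorem. -/
theorem dfn (hFM2 : B2.Fm2Stmt) (hINP : B1.InpStmt) (hFSL : B1.FslStmt) (hEXI : B1.ExiStmt)
    (hGEN : B2.GenStmt) : DefStmt := by
  intro F V E A _ _ _ _ _ _ _ _ ℓ _ φ e0 _ γ hctx hS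
  have : Fact ℓ.Prime := ⟨hctx.pr⟩
  have hcomm : ∀ a b : E, a * b = b * a := by
    intro a b
    obtain ⟨i, hi⟩ := Subgroup.mem_zpowers_iff.1 (hctx.gen a)
    obtain ⟨j, hj⟩ := Subgroup.mem_zpowers_iff.1 (hctx.gen b)
    rw [← hi, ← hj, ← zpow_add, ← zpow_add, add_comm]
  have hnt : Nontrivial V := by
    obtain ⟨u, hu⟩ := hctx.nt
    exact ⟨⟨u, 1, hu⟩⟩
  obtain ⟨Γ, _, _, _, _, fΓ, ed, H, _, _, ⟨nk⟩⟩ :=
    hFM2 ℓ F V E φ hcomm hctx.pg hnt hctx.cop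
  obtain ⟨c0, sp0, -, -, -, ⟨K, _, ⟨sep⟩⟩, J, _, ⟨fs⟩⟩ := hINP F A (V ⋊[φ] E) γ hS
  obtain ⟨I, _, ⟨c⟩⟩ := hFSL F Γ (MonoidAlgebra F (V ⋊[φ] E)) (V ⋊[φ] E) fΓ c0
  have hfin : Module.Finite F A := hS.fin
  obtain ⟨A', J', _, _, _, _, _, ⟨D⟩⟩ := hEXI F Γ (MonoidAlgebra F (V ⋊[φ] E)) A I (V ⋊[φ] E) J K
    c c0 fΓ sp0 sep fs
  have hcop : (Nat.card E : F) ≠ 0 := by
    intro h
    exact hctx.cop ((CharP.cast_eq_zero_iff F ℓ _).1 h)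
  exact hGEN F Γ (MonoidAlgebra F (V ⋊[φ] E)) A A' I (V ⋊[φ] E) J' K H E c c0 fΓ sp0 sep D nk ed
    hcomm hcop

end Pool.Agent.PFC.H49
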