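import Pool.Agent.PFC.StmtsB2

/-!
Squad PFC, block B2, rows LNA, RDF (helper49).
-/

set_option autoImplicit false

namespace Pool.Agent.PFC.B2.H49

open Pool.Agent.PFC.B1 Pool.Agent.PFC.B2

/-- LNA: linear algebra. -/
theorem lna : LnaStmt := by
  intro ι κ Ψ _ _ _ _ _ z w a b δ m m' g hδ h1 h2 h3
  classical
  let T : ((ι → ℚ) × (κ → ℚ)) →ₗ[ℚ] (ι → ℚ) :=
    { toFun := fun p i => ∑ s, p.1 s * z s i - ∑ j, p.2 j * w j i
      map_add' := by
        intro p q
        funext i
        simp only [Prod.fst_add, Prod.snd_add, Pi.add_apply, add_mul, Finset.sum_add_distrib]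
        ring
      map_smul' := by
        intro c p
        funext i
        simp only [Prod.smul_fst, Prod.smul_snd, Pi.smul_apply, smul_eq_mul, mul_assoc,
          ← Finset.mul_sum, RingHom.id_apply]
        ring }
  have hT : ∀ p i, T p i = ∑ s, p.1 s * z s i - ∑ j, p.2 j * w j i := fun p i => rfl
  have hsurj : LinearMap.range T = ⊤ := by
    rw [eq_top_iff]
    intro v _
    have hv : v = ∑ i0, (v i0 / δ i0) • T (a i0, b i0) := by
      funext i
      rw [Finset.sum_apply]
      have : ∀ i0, ((v i0 / δ i0) • T (a i0, b i0)) i = if i = i0 then v i0 else 0 := by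
        intro i0
        rw [Pi.smul_apply, hT, h1 i0 i, smul_eq_mul]
        show v i0 / δ i0 * ((if i = i0 then δ i0 else 0) + ∑ j, b i0 j * w j i -
          ∑ j, b i0 j * w j i) = _
        rw [add_sub_cancel_right]
        split_ifs with h
        · rw [div_mul_cancel₀ _ (hδ i0)]
        · rw [mul_zero]
      rw [Finset.sum_congr rfl (fun i0 _ => this i0), Finset.sum_ite_eq]
      simp
    rw [hv]
    exact Submodule.sum_mem _ (fun i0 _ => Submodule.smul_mem _ _ ⟨_, rfl⟩)
  have hdim := LinearMap.finrank_range_add_finrank_ker T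
  rw [hsurj, finrank_top, Module.finrank_prod, Module.finrank_fintype_fun_eq_card,
    Module.finrank_fintype_fun_eq_card] at hdim
  have hker : Module.finrank ℚ (LinearMap.ker T) = Fintype.card κ := by omega
  let v : Ψ → LinearMap.ker T := fun ψ => ⟨(m ψ, m' ψ), by
    rw [LinearMap.mem_ker]
    funext i
    rw [hT]
    show ∑ s, m ψ s * z s i - ∑ j, m' ψ j * w j i = 0
    rw [h2, sub_self]⟩
  have hli : LinearIndependent ℚ v := by
    rw [Fintype.linearIndependent_iff]
    intro c hc ψ
    have h4 : (∑ ψ', c ψ' • v ψ' : LinearMap.ker T).1 = 0 := by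
      rw [hc]
      rfl
    have h5 : ∑ ψ', c ψ' * m ψ' (g ψ) = 0 := by
      have h6 : ((∑ ψ', c ψ' • v ψ' : LinearMap.ker T) : (ι → ℚ) × (κ → ℚ)) =
          ∑ ψ', c ψ' • (m ψ', m' ψ') := by
        rw [Submodule.coe_sum]
        rfl
      rw [h6] at h4
      have h7 := congrArg (fun p : (ι → ℚ) × (κ → ℚ) => p.1 (g ψ)) h4
      simp only [Prod.fst_sum, Finset.sum_apply, Prod.smul_fst, Pi.smul_apply, smul_eq_mul,
        Prod.fst_zero, Pi.zero_apply] at h7
      exact h7
    have h8 : ∑ ψ', c ψ' * m ψ' (g ψ) = c ψ := by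
      have : ∀ ψ', c ψ' * m ψ' (g ψ) = if ψ' = ψ then c ψ' else 0 := by
        intro ψ'
        rw [h3]
        split_ifs <;> simp
      rw [Finset.sum_congr rfl (fun ψ' _ => this ψ'), Finset.sum_ite_eq']
      simp
    rw [h8] at h5
    exact h5
  have := hli.fintype_card_le_finrank
  rw [hker] at this
  exact this

/-- RDF: reduction of a Frobenius system. -/
theorem rdf : RdfStmt := by
  intro F A' A J _ _ _ _ _ _ d fb
  classical
  have hsm : ∀ (r : PowerSeries F) (x : A'), fb.q (r • x) =
      PowerSeries.constantCoeff r • fb.q x := by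
    intro r x
    rw [Algebra.smul_def, map_mul, fb.sc, Algebra.smul_def]
  have hC : ∀ (c : F) (x : A'), fb.q (PowerSeries.C c • x) = c • fb.q x := by
    intro c x
    rw [hsm, PowerSeries.constantCoeff_C]
  have hwd : ∀ x y : A', fb.q x = fb.q y →
      PowerSeries.constantCoeff (d.lam x) = PowerSeries.constantCoeff (d.lam y) := by
    intro x y h
    obtain ⟨z, hz⟩ := fb.ker (x - y) (by rw [map_sub, h, sub_self])
    have h1 : d.lam x - d.lam y = PowerSeries.X * d.lam z := by
      rw [← map_sub, hz, map_smul, smul_eq_mul]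
    have h2 := congrArg PowerSeries.constantCoeff h1
    rw [map_sub, map_mul, PowerSeries.constantCoeff_X, zero_mul, sub_eq_zero] at h2
    exact h2
  choose s hs using fb.surj
  have hl : ∀ x, PowerSeries.constantCoeff (d.lam (s (fb.q x))) =
      PowerSeries.constantCoeff (d.lam x) := fun x => hwd _ _ (hs _)
  let lam0 : A →ₗ[F] F :=
    { toFun := fun a => PowerSeries.constantCoeff (d.lam (s a))
      map_add' := by
        intro a b
        rw [← map_add, ← map_add]
        apply hwd
        rw [map_add, hs, hs, hs]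
      map_smul' := by
        intro c a
        have h1 : PowerSeries.constantCoeff (d.lam (s (c • a))) =
            PowerSeries.constantCoeff (d.lam (PowerSeries.C c • s a)) := by
          apply hwd
          rw [hs, hC, hs]
        rw [h1, map_smul, smul_eq_mul, map_mul, PowerSeries.constantCoeff_C]
        rfl }
  have hlam0 : ∀ x, lam0 (fb.q x) = PowerSeries.constantCoeff (d.lam x) := hl
  refine ⟨⟨lam0, fun i => fb.q (d.b i), fun i => fb.q (d.b' i), ?_, ?_⟩, fun i => rfl,
    fun i => rfl, hlam0⟩
  · intro a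
    obtain ⟨x, rfl⟩ := fb.surj a
    have h1 := congrArg fb.q (d.h1 x)
    rw [map_sum] at h1
    refine Eq.trans ?_ h1
    refine Finset.sum_congr rfl ?_
    intro i _
    rw [← map_mul fb.q, hlam0, hsm]
  · intro a
    obtain ⟨x, rfl⟩ := fb.surj a
    have h1 := congrArg fb.q (d.h2 x)
    rw [map_sum] at h1
    refine Eq.trans ?_ h1
    refine Finset.sum_congr rfl ?_
    intro i _
    rw [← map_mul fb.q, hlam0, hsm]

end Pool.Agent.PFC.B2.H49
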